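import Mathlib

/-!
# MP_a0e11f_co: two-sided gamma positivity over the even elements of type `D` fails for `n = 2`
-/

set_option autoImplicit false

namespace Pool.Agent.Results.MP_a0e11f_co.RankTwo

open Finset

/-- A signed permutation `π` of `{±1, …, ±n}`, given by the permutation `|π|` of `{1, …, n}` (written
on `Fin n`, so `i : Fin n` stands for the number `i + 1`) and by the signs: `π.2 i = true` means that
the value at `i + 1` is negative. -/
abbrev SP (n : ℕ) : Type := Equiv.Perm (Fin n) × (Fin n → Bool)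

/-- The value `π(i)` for `1 ≤ i ≤ n` (and `0` for other `i`). -/
def val {n : ℕ} (π : SP n) (i : ℕ) : ℤ :=
  if h : 1 ≤ i ∧ i ≤ n then
    (if π.2 ⟨i - 1, by omega⟩ then -(((π.1 ⟨i - 1, by omega⟩ : Fin n) : ℕ) + 1 : ℤ)
      else (((π.1 ⟨i - 1, by omega⟩ : Fin n) : ℕ) + 1 : ℤ))
  else 0

/-- The inverse signed permutation: `π⁻¹(|π(i)|) = ± i` with the sign of `π(i)`. -/
def inv {n : ℕ} (π : SP n) : SP n := (π.1.symm, fun j => π.2 (π.1.symm j))

/-- `π` belongs to the group of type `D`: an even number of the values are negative. -/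
def IsD {n : ℕ} (π : SP n) : Prop := Even ((range n).filter fun i => val π (i + 1) < 0).card

/-- The type `D` length. -/
def lenD {n : ℕ} (π : SP n) : ℕ :=
  ((range (n + 1) ×ˢ range (n + 1)).filter fun x =>
      1 ≤ x.1 ∧ x.1 < x.2 ∧ val π x.2 < val π x.1).card +
    ((range (n + 1) ×ˢ range (n + 1)).filter fun x =>
      1 ≤ x.1 ∧ x.1 < x.2 ∧ val π x.1 + val π x.2 < 0).card

/-- The values with the convention `π_0 = -π_2`. -/
def valD {n : ℕ} (π : SP n) (i : ℕ) : ℤ := if i = 0 then -val π 2 else val π i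

/-- The type `D` descent number: the number of `i ∈ {0, …, n-1}` with `π_i > π_{i+1}`. -/
def desD {n : ℕ} (π : SP n) : ℕ := ((range n).filter fun i => valD π (i + 1) < valD π i).card

instance {n : ℕ} (π : SP n) : Decidable (IsD π) := inferInstanceAs (Decidable (Even _))

/-- The two-sided polynomial over the elements of even length. -/
noncomputable def TSDplus (n : ℕ) (s t : ℝ) : ℝ :=
  ∑ π ∈ (univ : Finset (SP n)).filter (fun π => IsD π ∧ Even (lenD π)),
    t ^ desD π * s ^ desD (inv π)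

/-- The two-sided polynomial over the elements of odd length. -/
noncomputable def TSDminus (n : ℕ) (s t : ℝ) : ℝ :=
  ∑ π ∈ (univ : Finset (SP n)).filter (fun π => IsD π ∧ ¬ Even (lenD π)),
    t ^ desD π * s ^ desD (inv π)

/-- `f` has a nonnegative two-sided gamma expansion of degree `n`. -/
def HasExpansion (n : ℕ) (f : ℝ → ℝ → ℝ) : Prop :=
  ∃ γ : ℕ → ℕ → ℝ, (∀ i j, 0 ≤ γ i j) ∧ ∀ s t : ℝ, f s t =
    ∑ x ∈ (range (n + 1) ×ˢ range (n + 1)).filter (fun x => 2 * x.1 + x.2 ≤ n),
      γ x.1 x.2 * (s * t) ^ x.1 * (s + t) ^ x.2 * (1 + s * t) ^ (n - 2 * x.1 - x.2)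

theorem plus_two (s t : ℝ) : TSDplus 2 s t = 1 + s ^ 2 * t ^ 2 := by
  have h : ((univ : Finset (SP 2)).filter (fun π => IsD π ∧ Even (lenD π))) =
      {(1, fun _ => false), (1, fun _ => true)} := by decide
  have h1 : desD ((1, fun _ => false) : SP 2) = 0 := by decide
  have h2 : desD ((1, fun _ => true) : SP 2) = 2 := by decide
  have h3 : desD (inv ((1, fun _ => false) : SP 2)) = 0 := by decide
  have h4 : desD (inv ((1, fun _ => true) : SP 2)) = 2 := by decide
  rw [TSDplus, h, sum_pair (by decide), h1, h2, h3, h4]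
  ring

theorem minus_two (s t : ℝ) : TSDminus 2 s t = 2 * (s * t) := by
  have h : ((univ : Finset (SP 2)).filter (fun π => IsD π ∧ ¬ Even (lenD π))) =
      {(Equiv.swap 0 1, fun _ => false), (Equiv.swap 0 1, fun _ => true)} := by decide
  have h1 : desD ((Equiv.swap 0 1, fun _ => false) : SP 2) = 1 := by decide
  have h2 : desD ((Equiv.swap 0 1, fun _ => true) : SP 2) = 1 := by decide
  have h3 : desD (inv ((Equiv.swap 0 1, fun _ => false) : SP 2)) = 1 := by decide
  have h4 : desD (inv ((Equiv.swap 0 1, fun _ => true) : SP 2)) = 1 := by decide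
  rw [TSDminus, h, sum_pair (by decide), h1, h2, h3, h4]
  ring

/-- For `n = 2` the polynomial over the even elements has no nonnegative two-sided gamma expansion;
so the answer to Q1 is negative. -/
theorem result :
    (∀ s t : ℝ, TSDplus 2 s t = 1 + s ^ 2 * t ^ 2) ∧ ¬ HasExpansion 2 (TSDplus 2) ∧
    ¬ ∀ n : ℕ, 2 ≤ n → HasExpansion n (TSDplus n) ∧ HasExpansion n (TSDminus n) := by
  have key : ¬ HasExpansion 2 (TSDplus 2) := by
    rintro ⟨γ, hγ, h⟩
    have hs : ((range (2 + 1) ×ˢ range (2 + 1)).filter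
        (fun x : ℕ × ℕ => 2 * x.1 + x.2 ≤ 2)) = {(0, 0), (0, 1), (0, 2), (1, 0)} := by decide
    have h0 := h 0 0
    have h1 := h 1 1
    rw [plus_two, hs] at h0 h1
    simp at h0 h1
    have a := hγ 0 0
    have b := hγ 0 1
    have c := hγ 0 2
    have d := hγ 1 0
    norm_num at h0 h1
    nlinarith
  exact ⟨plus_two, key, fun h => key (h 2 le_rfl).1⟩

end Pool.Agent.Results.MP_a0e11f_co.RankTwo
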